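import Pool.Agent.N463.MI.Stm

set_option autoImplicit false

/-! Euler identity for integer polynomials. -/

namespace Pool.Agent.N543.MI

open Finset Polynomial
open Pool.Agent.N463.MI (fpoly dpoly cc G01)

/-- `∏_{k<M} (1 - X^{k+1})` -/
noncomputable def W (M : ℕ) : ℤ[X] := ∏ k ∈ range M, (1 - X ^ (k + 1))

/-- `∏_{k<L} (1 - X^{2k+1})` -/
noncomputable def O (L : ℕ) : ℤ[X] := ∏ k ∈ range L, (1 - X ^ (2 * k + 1))

lemma coeff_eq {P Q : ℤ[X]} {m n : ℕ} (h : X ^ m ∣ P - Q) (hn : n < m) : P.coeff n = Q.coeff n := by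
  have h1 := (X_pow_dvd_iff.mp h) n hn
  rw [coeff_sub] at h1
  linarith

lemma dpoly_step (a : ℤ) {L M : ℕ} (h : L ≤ M) : X ^ (L + 1) ∣ dpoly a M - dpoly a L := by
  induction M, h using Nat.le_induction with
  | base => rw [sub_self]; exact dvd_zero _
  | succ M hM ih =>
    have e : dpoly a (M + 1) - dpoly a L = (dpoly a M - dpoly a L) + X ^ (L + 1) * (X ^ (M - L) * (dpoly a M * C a)) := by
      have e1 : dpoly a (M + 1) = dpoly a M * (1 + C a * X ^ (M + 1)) := by
        unfold dpoly; rw [prod_range_succ]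
      have e2 : (X : ℤ[X]) ^ (M + 1) = X ^ (L + 1) * X ^ (M - L) := by rw [← pow_add]; congr 1; omega
      rw [e1, e2]; ring
    rw [e]
    exact dvd_add ih (dvd_mul_right _ _)

lemma fpoly_eq (a : ℤ) (L : ℕ) : fpoly a L = dpoly a L * O L := rfl

lemma O_step {L M : ℕ} (h : L ≤ M) : X ^ (L + 1) ∣ (X * O M - X * O L) := by
  induction M, h using Nat.le_induction with
  | base => rw [sub_self]; exact dvd_zero _
  | succ M hM ih =>
    have e : X * O (M + 1) - X * O L = (X * O M - X * O L) - X ^ (L + 1) * (X ^ (2 * M + 1 - L) * O M) := by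
      have e1 : O (M + 1) = O M * (1 - X ^ (2 * M + 1)) := by
        unfold O; rw [prod_range_succ]
      have e2 : (X : ℤ[X]) * X ^ (2 * M + 1) = X ^ (L + 1) * X ^ (2 * M + 1 - L) := by
        rw [← pow_succ', ← pow_add]; congr 1; omega
      rw [e1]
      calc X * (O M * (1 - X ^ (2 * M + 1))) - X * O L = (X * O M - X * O L) - (X * X ^ (2 * M + 1)) * O M := by ring
        _ = _ := by rw [e2]; ring
    rw [e]
    exact dvd_sub ih (dvd_mul_right _ _)

lemma fpoly_step (a : ℤ) {L M : ℕ} (h : L ≤ M) : X ^ (L + 1) ∣ fpoly a M - fpoly a L := by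
  induction M, h using Nat.le_induction with
  | base => rw [sub_self]; exact dvd_zero _
  | succ M hM ih =>
    have e : fpoly a (M + 1) - fpoly a L = (fpoly a M - fpoly a L) + X ^ (L + 1) *
        (fpoly a M * (X ^ (M - L) * C a - X ^ (2 * M - L) - X ^ (M - L) * C a * X ^ (2 * M + 1))) := by
      have e1 : fpoly a (M + 1) = fpoly a M * ((1 + C a * X ^ (M + 1)) * (1 - X ^ (2 * M + 1))) := by
        unfold fpoly; rw [prod_range_succ, prod_range_succ]; ring
      have e2 : (X : ℤ[X]) ^ (M + 1) = X ^ (L + 1) * X ^ (M - L) := by rw [← pow_add]; congr 1; omega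
      have e3 : (X : ℤ[X]) ^ (2 * M + 1) = X ^ (L + 1) * X ^ (2 * M - L) := by rw [← pow_add]; congr 1; omega
      rw [e1, e2]
      calc fpoly a M * ((1 + C a * (X ^ (L + 1) * X ^ (M - L))) * (1 - X ^ (2 * M + 1))) - fpoly a L =
          (fpoly a M - fpoly a L) + (X ^ (L + 1) * (fpoly a M * (X ^ (M - L) * C a
            - X ^ (M - L) * C a * X ^ (2 * M + 1))) - X ^ (2 * M + 1) * fpoly a M) := by ring
        _ = (fpoly a M - fpoly a L) + (X ^ (L + 1) * (fpoly a M * (X ^ (M - L) * C a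
            - X ^ (M - L) * C a * X ^ (2 * M + 1))) - (X ^ (L + 1) * X ^ (2 * M - L)) * fpoly a M) := by
          rw [← e3]
        _ = _ := by ring
    rw [e]
    exact dvd_add ih (dvd_mul_right _ _)

lemma W_step {L M : ℕ} (h : L ≤ M) : X ^ (L + 1) ∣ W M - W L := by
  induction M, h using Nat.le_induction with
  | base => rw [sub_self]; exact dvd_zero _
  | succ M hM ih =>
    have e : W (M + 1) - W L = (W M - W L) - X ^ (L + 1) * (X ^ (M - L) * W M) := by
      have e1 : W (M + 1) = W M * (1 - X ^ (M + 1)) := by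
        unfold W; rw [prod_range_succ]
      have e2 : (X : ℤ[X]) ^ (M + 1) = X ^ (L + 1) * X ^ (M - L) := by rw [← pow_add]; congr 1; omega
      rw [e1, e2]; ring
    rw [e]
    exact dvd_sub ih (dvd_mul_right _ _)

lemma W_two (L : ℕ) : W L * dpoly 1 L * O L = W (2 * L) := by
  induction L with
  | zero => simp [W, O, dpoly]
  | succ L ih =>
    have e1 : W (L + 1) = W L * (1 - X ^ (L + 1)) := by unfold W; rw [prod_range_succ]
    have e2 : dpoly 1 (L + 1) = dpoly 1 L * (1 + X ^ (L + 1)) := by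
      unfold dpoly; rw [prod_range_succ, C_1, one_mul]
    have e3 : O (L + 1) = O L * (1 - X ^ (2 * L + 1)) := by unfold O; rw [prod_range_succ]
    have e4 : W (2 * (L + 1)) = W (2 * L) * (1 - X ^ (2 * L + 1)) * (1 - X ^ (2 * L + 2)) := by
      unfold W
      rw [show 2 * (L + 1) = 2 * L + 1 + 1 by ring, prod_range_succ, prod_range_succ]
    have e5 : (X : ℤ[X]) ^ (2 * L + 2) = X ^ (L + 1) * X ^ (L + 1) := by rw [← pow_add]; congr 1; ring
    rw [e1, e2, e3, e4, e5, ← ih]; ring

lemma W_zero (L : ℕ) : (W L).coeff 0 = 1 := by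
  rw [coeff_zero_eq_eval_zero]
  unfold W
  rw [eval_prod]
  refine prod_eq_one fun k _ => ?_
  simp

lemma DO (L : ℕ) : X ^ (L + 1) ∣ dpoly 1 L * O L - 1 := by
  have h1 : X ^ (L + 1) ∣ W L * (dpoly 1 L * O L - 1) := by
    have e : W L * (dpoly 1 L * O L - 1) = W (2 * L) - W L := by rw [← W_two]; ring
    rw [e]
    exact W_step (by omega)
  refine (prime_X (R := ℤ)).pow_dvd_of_dvd_mul_left (L + 1) ?_ h1
  rw [X_dvd_iff, W_zero]
  exact one_ne_zero

theorem t_G01 : G01 := by
  intro a L n hn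
  refine ⟨?_, ?_, ?_⟩
  · exact (coeff_eq (fpoly_step a hn) (Nat.lt_succ_self n)).symm
  · exact coeff_eq (dpoly_step a hn) (Nat.lt_succ_self n)
  · refine coeff_eq (m := L + 1) ?_ (by omega)
    have e : dpoly 1 L * fpoly a L - dpoly a L = dpoly a L * (dpoly 1 L * O L - 1) := by
      rw [fpoly_eq]; ring
    rw [e]
    exact (DO L).mul_left _

end Pool.Agent.N543.MI
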