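import Pool.Agent.N463.MI.Stm

set_option autoImplicit false

/-! Lower bound for the number of partitions into distinct parts. -/

namespace Pool.Agent.N543.MI.F

open Finset Polynomial
open Pool.Agent.N463.MI (dpoly qq F02)

/-- triangular numbers -/
def tri : ℕ → ℕ
  | 0 => 0
  | j + 1 => tri j + (j + 1)

lemma tri_two (j : ℕ) : 2 * tri j = j * (j + 1) := by
  induction j with
  | zero => rfl
  | succ j ih =>
    show 2 * (tri j + (j + 1)) = _
    rw [mul_add, ih]; ring

lemma tri_eq (j : ℕ) : tri j = j * (j + 1) / 2 := by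
  have := tri_two j
  omega

/-- the number of partitions of `N` into parts of size at most `j` -/
def R : ℕ → ℕ → ℕ
  | 0, N => if N = 0 then 1 else 0
  | j + 1, N => ∑ i ∈ range (N / (j + 1) + 1), R j (N - i * (j + 1))

lemma R_lt {j N : ℕ} (h : N < j + 1) : R (j + 1) N = R j N := by
  show ∑ i ∈ range (N / (j + 1) + 1), R j (N - i * (j + 1)) = R j N
  rw [Nat.div_eq_of_lt h, zero_add, sum_range_one, zero_mul, Nat.sub_zero]

lemma R_ge {j N : ℕ} (h : j + 1 ≤ N) : R (j + 1) N = R j N + R (j + 1) (N - (j + 1)) := by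
  show ∑ i ∈ range (N / (j + 1) + 1), R j (N - i * (j + 1)) =
    R j N + ∑ i ∈ range ((N - (j + 1)) / (j + 1) + 1), R j (N - (j + 1) - i * (j + 1))
  have e : N / (j + 1) = (N - (j + 1)) / (j + 1) + 1 := by
    conv_lhs => rw [← Nat.sub_add_cancel h]
    rw [Nat.add_div_right _ (Nat.succ_pos j)]
  rw [e, sum_range_succ', zero_mul, Nat.sub_zero, add_comm (R j N)]
  congr 1
  refine sum_congr rfl fun i _ => ?_
  congr 1
  rw [Nat.sub_sub]
  congr 1
  ring

/-- `∏_{i ≤ k < L} (1 + X^{k+1})` -/
noncomputable def Q (i L : ℕ) : ℤ[X] := ∏ k ∈ Ico i L, (1 + X ^ (k + 1))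

lemma Q_step {i L : ℕ} (h : i < L) (n : ℕ) : (Q i L).coeff n =
    (Q (i + 1) L).coeff n + if i + 1 ≤ n then (Q (i + 1) L).coeff (n - (i + 1)) else 0 := by
  have e : Q i L = Q (i + 1) L + Q (i + 1) L * X ^ (i + 1) := by
    unfold Q
    rw [prod_eq_prod_Ico_succ_bot h]; ring
  rw [e, coeff_add, coeff_mul_X_pow']

lemma Q_main (L m : ℕ) : ∀ i, i + m = L → (∀ n, 0 ≤ (Q i L).coeff n) ∧ (Q i L).coeff 0 = 1 ∧
    ∀ j N, N + tri j + i * j ≤ L → (R j N : ℤ) ≤ (Q i L).coeff (N + tri j + i * j) := by
  induction m with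
  | zero =>
    intro i hi
    have e : Q i L = 1 := by
      unfold Q
      rw [Ico_eq_empty (by omega), prod_empty]
    rw [e]
    refine ⟨?_, ?_, ?_⟩
    · intro n
      rw [coeff_one]; split_ifs <;> norm_num
    · simp
    · intro j N hN
      rcases Nat.eq_zero_or_pos j with h0 | h0
      · subst h0
        show ((if N = 0 then 1 else 0 : ℕ) : ℤ) ≤ _
        have e2 : N + tri 0 + i * 0 = N := by simp [tri]
        rw [e2, coeff_one]
        by_cases hN0 : N = 0
        · subst hN0; simp
        · rw [if_neg hN0]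
          split_ifs <;> norm_num
      · exfalso
        have h1 : 1 ≤ tri j := by
          have := tri_two j
          nlinarith
        have h2 : i * 1 ≤ i * j := Nat.mul_le_mul_left i h0
        omega
  | succ m ih =>
    intro i hi
    have hiL : i < L := by omega
    obtain ⟨h1, h2, h3⟩ := ih (i + 1) (by omega)
    refine ⟨?_, ?_, ?_⟩
    · intro n
      rw [Q_step hiL]
      have := h1 n
      split_ifs
      · have := h1 (n - (i + 1)); linarith
      · linarith
    · rw [Q_step hiL, if_neg (by omega), h2]; rfl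
    · intro j N hN
      rcases j with _ | j
      · show ((if N = 0 then 1 else 0 : ℕ) : ℤ) ≤ _
        have e2 : N + tri 0 + i * 0 = N := by simp [tri]
        rw [e2, Q_step hiL]
        by_cases hN0 : N = 0
        · subst hN0
          rw [if_pos rfl, h2, if_neg (by omega)]; norm_num
        · rw [if_neg hN0]
          have := h1 N
          split_ifs
          · have := h1 (N - (i + 1)); push_cast; linarith
          · push_cast; linarith
      · have et : tri (j + 1) = tri j + (j + 1) := rfl
        have e1 : N + tri (j + 1) + i * (j + 1) - (i + 1) = N + tri j + (i + 1) * j := by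
          rw [et]
          have : i * (j + 1) = i * j + i := by ring
          have : (i + 1) * j = i * j + j := by ring
          omega
        have hle : i + 1 ≤ N + tri (j + 1) + i * (j + 1) := by
          rw [et]
          have : i * (j + 1) = i * j + i := by ring
          omega
        rw [Q_step hiL, if_pos hle, e1]
        have h4 := h3 j N (by
          have := e1
          omega)
        by_cases hjN : j + 1 ≤ N
        · rw [R_ge hjN]
          have e3 : N - (j + 1) + tri (j + 1) + (i + 1) * (j + 1) = N + tri (j + 1) + i * (j + 1) := by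
            have : (i + 1) * (j + 1) = i * (j + 1) + (j + 1) := by ring
            omega
          have h5 := h3 (j + 1) (N - (j + 1)) (by rw [e3]; exact hN)
          rw [e3] at h5
          push_cast
          linarith
        · rw [R_lt (by omega)]
          have := h1 (N + tri (j + 1) + i * (j + 1))
          linarith

lemma bern (k : ℕ) {x h : ℝ} (h0 : 0 ≤ h) (hx : h ≤ x) :
    x ^ (k + 1) - (k + 1) * h * x ^ k ≤ (x - h) ^ (k + 1) := by
  induction k with
  | zero => simp
  | succ k ih =>
    have hx0 : 0 ≤ x := h0.trans hx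
    have h1 : (x - h) * (x ^ (k + 1) - (k + 1) * h * x ^ k) ≤ (x - h) * (x - h) ^ (k + 1) :=
      mul_le_mul_of_nonneg_left ih (by linarith)
    have h2 : 0 ≤ (k + 1 : ℝ) * h ^ 2 * x ^ k := by positivity
    calc x ^ (k + 1 + 1) - ((k + 1 : ℕ) + 1) * h * x ^ (k + 1) ≤
        x ^ (k + 1 + 1) - ((k + 1 : ℕ) + 1) * h * x ^ (k + 1) + (k + 1 : ℝ) * h ^ 2 * x ^ k := by linarith
      _ = (x - h) * (x ^ (k + 1) - (k + 1) * h * x ^ k) := by push_cast; ring
      _ ≤ (x - h) * (x - h) ^ (k + 1) := h1
      _ = (x - h) ^ (k + 1 + 1) := by ring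

lemma R_one (N : ℕ) : R 1 N = 1 := by
  induction N using Nat.strong_induction_on with
  | _ N ih =>
    rcases Nat.eq_zero_or_pos N with h | h
    · subst h
      rw [R_lt (by norm_num)]; rfl
    · rw [show (1:ℕ) = 0 + 1 from rfl, R_ge (by omega)]
      have h1 : R 0 N = 0 := by
        show (if N = 0 then 1 else 0) = 0
        rw [if_neg (by omega)]
      rw [h1, zero_add]
      exact ih (N - 1) (by omega)

lemma R_bound (m : ℕ) : ∀ N : ℕ, (N : ℝ) ^ m / ((m + 1).factorial * m.factorial) ≤ (R (m + 1) N : ℝ) := by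
  induction m with
  | zero =>
    intro N
    rw [R_one]; simp
  | succ m ihm =>
    intro N
    induction N using Nat.strong_induction_on with
    | _ N ihN =>
      set c : ℝ := ((m + 1).factorial : ℝ) * (m.factorial : ℝ) with hc
      have hc0 : 0 < c := by positivity
      have hcc : ((m + 1 + 1).factorial : ℝ) * ((m + 1).factorial : ℝ) = (m + 2) * (m + 1) * c := by
        rw [hc, Nat.factorial_succ (m + 1), Nat.factorial_succ m]
        push_cast; ring
      rw [hcc]
      have h1 := ihm N
      by_cases hN : m + 2 ≤ N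
      · rw [show m + 1 + 1 = (m + 1) + 1 from rfl, R_ge (by omega : m + 1 + 1 ≤ N)]
        have h2 := ihN (N - (m + 1 + 1)) (by omega)
        rw [hcc, Nat.cast_sub (by omega)] at h2
        push_cast at h2 ⊢
        have h3 := bern m (x := N) (h := (m : ℝ) + 1 + 1) (by positivity) (by exact_mod_cast hN)
        have h4 : (N : ℝ) ^ (m + 1) / ((m + 2) * (m + 1) * c) ≤
            (N : ℝ) ^ m / c + ((N : ℝ) - (m + 1 + 1)) ^ (m + 1) / ((m + 2) * (m + 1) * c) := by
          rw [div_add_div _ _ hc0.ne' (by positivity), div_le_div_iff₀ (by positivity) (by positivity)]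
          have h5 : 0 ≤ (m + 2 : ℝ) * (m + 1) * c * c := by positivity
          have h6 : (N : ℝ) ^ (m + 1) ≤ (m + 2) * (m + 1) * (N : ℝ) ^ m + ((N : ℝ) - (m + 1 + 1)) ^ (m + 1) := by
            have e : ((m : ℝ) + 1) * (m + 1 + 1) * (N : ℝ) ^ m = (m + 2) * (m + 1) * (N : ℝ) ^ m := by ring
            linarith
          calc (N : ℝ) ^ (m + 1) * (c * ((m + 2) * (m + 1) * c)) =
              (N : ℝ) ^ (m + 1) * ((m + 2 : ℝ) * (m + 1) * c * c) := by ring
            _ ≤ ((m + 2) * (m + 1) * (N : ℝ) ^ m + ((N : ℝ) - (m + 1 + 1)) ^ (m + 1)) *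
                ((m + 2 : ℝ) * (m + 1) * c * c) := mul_le_mul_of_nonneg_right h6 h5
            _ = _ := by ring
        linarith
      · rw [R_lt (by omega : N < m + 1 + 1)]
        refine le_trans ?_ h1
        rw [div_le_div_iff₀ (by positivity) hc0]
        have h2 : (N : ℝ) ≤ (m + 2) * (m + 1) := by
          have h3 : N ≤ m + 1 := by omega
          have h4 : (N : ℝ) ≤ m + 1 := by exact_mod_cast h3
          nlinarith
        calc (N : ℝ) ^ (m + 1) * c = (N : ℝ) * ((N : ℝ) ^ m * c) := by ring
          _ ≤ ((m + 2) * (m + 1)) * ((N : ℝ) ^ m * c) := mul_le_mul_of_nonneg_right h2 (by positivity)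
          _ = _ := by ring

theorem t_F02 : F02 := by
  intro j n hj hn
  obtain ⟨m, rfl⟩ : ∃ m, j = m + 1 := ⟨j - 1, by omega⟩
  rw [← tri_eq] at hn
  obtain ⟨-, -, h3⟩ := Q_main n n 0 (by omega)
  have h4 := h3 (m + 1) (n - tri (m + 1)) (by omega)
  have e1 : n - tri (m + 1) + tri (m + 1) + 0 * (m + 1) = n := by omega
  rw [e1] at h4
  have e2 : qq n = (Q 0 n).coeff n := by
    unfold qq dpoly Q
    rw [← range_eq_Ico]
    congr 1
    refine prod_congr rfl fun k _ => ?_
    rw [C_1, one_mul]
  rw [e2]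
  have h5 := R_bound m (n - tri (m + 1))
  have e3 : ((n - tri (m + 1) : ℕ) : ℝ) = (n : ℝ) - ((m + 1 : ℕ) : ℝ) * (((m + 1 : ℕ) : ℝ) + 1) / 2 := by
    rw [Nat.cast_sub hn]
    have := congrArg (Nat.cast (R := ℝ)) (tri_two (m + 1))
    push_cast at this ⊢
    linarith
  rw [e3] at h5
  have h6 : (R (m + 1) (n - tri (m + 1)) : ℝ) ≤ (((Q 0 n).coeff n : ℤ) : ℝ) := by exact_mod_cast h4
  rw [Nat.add_sub_cancel]
  exact h5.trans h6

end Pool.Agent.N543.MI.F
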